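import Pool.Agent.Helper35.SH.Eb
import Pool.Agent.Helper11.SH.S3

/-!
PROJECT ALLQ, blocks E2, E3: Lemma B (evaluation at the origin of `conj N`).
-/

set_option autoImplicit false

namespace Pool.Agent.Helper35.SH

open Finset Complex Filter Topology Pool.Agent.Helper49.SH

variable {ι : Type} [Fintype ι]

theorem lemB {E : ι → ι → ℚ} {N : Submodule ℂ (ι → ℂ)} (hP : Pol E N) {A0 G : (ι → ℂ) → ℂ}
    {A : Fin (Module.finrank ℂ N) → (ι → ℂ) → ℂ} (h0 : AlgT E N A0) (hA : ∀ i, AlgT E N (A i))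
    (hG : AlgT E N G) (h00 : A0 0 ≠ 0) (hA0 : ∀ i, A i 0 = 0)
    (hind : ∀ e ∈ Nc N, (∀ i, fderiv ℂ (A i) 0 e = 0) → e = 0) :
    ∃ c : Fin (Module.finrank ℂ N) → ℂ, (∀ i, IsAlgebraic ℚ (c i)) ∧ ∀ e ∈ Nc N,
      fderiv ℂ G 0 e * A0 0 - G 0 * fderiv ℂ A0 0 e = ∑ i, c i * fderiv ℂ (A i) 0 e := by
  classical
  have hfr : Module.finrank ℂ (Fin (Module.finrank ℂ N) → ℂ) = Module.finrank ℂ (Nc N) := by
    rw [Module.finrank_fintype_fun_eq_card, Fintype.card_fin, finrank_Nc]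
  let φ : (Fin (Module.finrank ℂ N) → ℂ) ≃ₗ[ℂ] Nc N := LinearEquiv.ofFinrankEq _ _ hfr
  have hne : A0 ≠ 0 := fun h => h00 (by rw [h]; rfl)
  obtain ⟨Q, hQ0, hQa, hQ⟩ := siegNc (ν := Fin (Module.finrank ℂ N)) (κ := Option (Fin (Module.finrank ℂ N))) hP hP.alt φ (by simp)
    (A := fun o => o.elim G A) h0 hne (by rintro (_ | i); exacts [hG, hA i])
  -- linear data
  let ψ : (Fin (Module.finrank ℂ N) → ℂ) →L[ℂ] (ι → ℂ) :=
    LinearMap.toContinuousLinearMap ((Nc N).subtype ∘ₗ φ.toLinearMap)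
  have hψ : ∀ x, ψ x = (φ x : ι → ℂ) := fun x => rfl
  have hψ0 : ψ 0 = 0 := map_zero ψ
  have hcomp : ∀ F : (ι → ℂ) → ℂ, Differentiable ℂ F →
      HasFDerivAt (fun x => F (ψ x)) ((fderiv ℂ F 0).comp ψ) 0 := by
    intro F hF
    have h1 : HasFDerivAt F (fderiv ℂ F 0) (ψ 0) := by
      rw [hψ0]
      exact (hF 0).hasFDerivAt
    exact h1.comp (0 : Fin (Module.finrank ℂ N) → ℂ) ψ.hasFDerivAt
  have han : ∀ F : (ι → ℂ) → ℂ, Differentiable ℂ F → AnalyticAt ℂ (fun x => F (ψ x)) 0 := by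
    intro F hF
    exact Pool.Agent.Helper96.SH.analyticOnNhd_of_differentiableOn isOpen_univ
      (hF.comp ψ.differentiable).differentiableOn 0 (Set.mem_univ _)
  have h00' : A0 (ψ 0) ≠ 0 := by rw [hψ0]; exact h00
  -- the coordinates
  let gL : (Fin (Module.finrank ℂ N) → ℂ) →ₗ[ℂ] (Fin (Module.finrank ℂ N) → ℂ) :=
    { toFun := fun v i => fderiv ℂ (A i) 0 (ψ v) / A0 0
      map_add' := fun x y => by
        funext i
        simp [add_div]
      map_smul' := fun c x => by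
        funext i
        simp [mul_div_assoc] }
  have hginj : Function.Injective gL := by
    rw [injective_iff_map_eq_zero]
    intro v hv
    have h1 := hind (ψ v) (φ v).2 fun i => by
      have h2 := congrFun hv i
      change fderiv ℂ (A i) 0 (ψ v) / A0 0 = 0 at h2
      exact (div_eq_zero_iff.1 h2).resolve_right h00
    have h2 : φ v = 0 := Subtype.ext h1
    exact (map_eq_zero_iff φ φ.injective).1 h2
  let ge : (Fin (Module.finrank ℂ N) → ℂ) ≃L[ℂ] (Fin (Module.finrank ℂ N) → ℂ) :=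
    (LinearEquiv.ofInjectiveEndo gL hginj).toContinuousLinearEquiv
  have hge : ∀ v i, ge v i = fderiv ℂ (A i) 0 (ψ v) / A0 0 := fun v i => rfl
  let g : (Fin (Module.finrank ℂ N) → ℂ) → (Fin (Module.finrank ℂ N) → ℂ) := fun x i => A i (ψ x) / A0 (ψ x)
  have hquot : ∀ F : (ι → ℂ) → ℂ, Differentiable ℂ F →
      DifferentiableAt ℂ (fun x => F (ψ x) / A0 (ψ x)) 0 ∧
      ∀ v, fderiv ℂ (fun x => F (ψ x) / A0 (ψ x)) 0 v =
        (A0 0 ^ 2)⁻¹ * (A0 0 * fderiv ℂ F 0 (ψ v) - F 0 * fderiv ℂ A0 0 (ψ v)) := by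
    intro F hF
    have h1 : DifferentiableAt ℂ (fun x => F (ψ x) / A0 (ψ x)) 0 :=
      (((han F hF).div (han _ h0.diff) h00')).differentiableAt
    refine ⟨h1, fun v => ?_⟩
    have h2 := h1.hasFDerivAt.mul (hcomp A0 h0.diff)
    have h3 : (fun x => F (ψ x)) =ᶠ[𝓝 0]
        ((fun x => F (ψ x) / A0 (ψ x)) * fun x => A0 (ψ x)) := by
      have h4 : ∀ᶠ x in 𝓝 (0 : Fin (Module.finrank ℂ N) → ℂ), A0 (ψ x) ≠ 0 :=
        (hcomp A0 h0.diff).continuousAt.eventually_ne h00'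
      filter_upwards [h4] with x hx
      rw [Pi.mul_apply, div_mul_cancel₀ _ hx]
    have h5 := (hcomp F hF).unique (h2.congr_of_eventuallyEq h3)
    have h6 := congrArg (fun L => L v) h5
    simp only [ContinuousLinearMap.add_apply, ContinuousLinearMap.smul_apply,
      ContinuousLinearMap.comp_apply, smul_eq_mul, hψ0] at h6
    rw [h6]
    field_simp
    ring
  have hg : HasStrictFDerivAt g (ge : (Fin (Module.finrank ℂ N) → ℂ) →L[ℂ] (Fin (Module.finrank ℂ N) → ℂ)) 0 := by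
    rw [hasStrictFDerivAt_pi']
    intro i
    have h1 : AnalyticAt ℂ (fun x => A i (ψ x) / A0 (ψ x)) 0 :=
      (han _ (hA i).diff).div (han _ h0.diff) h00'
    have h2 := h1.hasStrictFDerivAt
    have h3 : fderiv ℂ (fun x => A i (ψ x) / A0 (ψ x)) 0 =
        (ContinuousLinearMap.proj i).comp
          (ge : (Fin (Module.finrank ℂ N) → ℂ) →L[ℂ] (Fin (Module.finrank ℂ N) → ℂ)) := by
      refine ContinuousLinearMap.ext fun v => ?_
      rw [(hquot _ (hA i).diff).2]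
      change _ = ge v i
      rw [hge, hA0, zero_mul, sub_zero]
      field_simp
    rw [h3] at h2
    exact h2
  have hφd : DifferentiableAt ℂ (fun x => G (ψ x) / A0 (ψ x)) 0 :=
    (hquot _ hG.diff).1
  have hz : ∀ᶠ x in 𝓝 (0 : Fin (Module.finrank ℂ N) → ℂ), MvPolynomial.eval
      (fun o : Option (Fin (Module.finrank ℂ N)) => o.elim (G (ψ x) / A0 (ψ x)) (g x)) Q = 0 := by
    have h1 : ∀ᶠ x in 𝓝 (0 : Fin (Module.finrank ℂ N) → ℂ), A0 (ψ x) ≠ 0 :=
      (hcomp A0 h0.diff).continuousAt.eventually_ne h00'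
    filter_upwards [h1] with x hx
    have h2 := hQ x hx
    have h3 : (fun o : Option (Fin (Module.finrank ℂ N)) => o.elim (G (ψ x) / A0 (ψ x)) (g x)) =
        fun k : Option (Fin (Module.finrank ℂ N)) => (k.elim G A : (ι → ℂ) → ℂ) (φ x : ι → ℂ) /
          A0 (φ x : ι → ℂ) := by
      funext o
      rcases o with _ | i <;> rfl
    rw [h3]
    exact h2
  have key := fun (c : Fin (Module.finrank ℂ N) → ℂ) (hc : ∀ i, IsAlgebraic ℚ (c i)) =>
    Pool.Agent.Helper11.SH.eval_alg_deriv g ge 0 hg (by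
      funext i
      change A i (ψ 0) / A0 (ψ 0) = 0
      rw [hψ0, hA0, zero_div]) (fun x => G (ψ x) / A0 (ψ x)) hφd Q hQ0 hQa hz c hc
  have hA0al : IsAlgebraic ℚ (A0 0) := by
    have h1 := h0.val 0
    have h2 : rv (0 : ι → ℚ) = 0 := by
      funext i
      simp [rv]
    rwa [h2] at h1
  have hq : ∀ i, IsAlgebraic ℚ (fderiv ℂ (fun x => G (ψ x) / A0 (ψ x)) 0
      (ge.symm (Pi.single i 1))) := by
    intro i
    refine key _ fun j => ?_
    rw [Pi.single_apply]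
    split_ifs
    · exact isAlgebraic_one
    · exact isAlgebraic_zero
  refine ⟨fun i => A0 0 * fderiv ℂ (fun x => G (ψ x) / A0 (ψ x)) 0 (ge.symm (Pi.single i 1)),
    fun i => hA0al.mul (hq i), fun e he => ?_⟩
  obtain ⟨v, hv⟩ : ∃ v, ψ v = e := ⟨φ.symm ⟨e, he⟩, by
    rw [hψ, LinearEquiv.apply_symm_apply]⟩
  have h1 : v = ∑ i, ge v i • ge.symm (Pi.single i 1) := by
    have h2 : ge v = ∑ i, ge v i • Pi.single i (1 : ℂ) := by
      funext j
      simp [Finset.sum_apply, Pi.single_apply]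
    conv_lhs => rw [← ge.symm_apply_apply v, h2]
    rw [map_sum]
    refine sum_congr rfl fun i _ => ?_
    rw [map_smul]
  have h2 : fderiv ℂ (fun x => G (ψ x) / A0 (ψ x)) 0 v =
      ∑ i, ge v i * fderiv ℂ (fun x => G (ψ x) / A0 (ψ x)) 0 (ge.symm (Pi.single i 1)) := by
    conv_lhs => rw [h1]
    rw [map_sum]
    refine sum_congr rfl fun i _ => ?_
    rw [map_smul, smul_eq_mul]
  have h3 : fderiv ℂ (fun x => G (ψ x) / A0 (ψ x)) 0 v =
      (A0 0 ^ 2)⁻¹ * (A0 0 * fderiv ℂ G 0 e - G 0 * fderiv ℂ A0 0 e) := by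
    rw [(hquot _ hG.diff).2, hv]
  have h4 : fderiv ℂ G 0 e * A0 0 - G 0 * fderiv ℂ A0 0 e =
      A0 0 ^ 2 * fderiv ℂ (fun x => G (ψ x) / A0 (ψ x)) 0 v := by
    rw [h3]
    field_simp
  rw [h4, h2, mul_sum]
  refine sum_congr rfl fun i _ => ?_
  rw [hge, hv]
  field_simp

end Pool.Agent.Helper35.SH
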