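import Pool.Agent.Helper49.SH.Df
import Pool.Agent.Helper11.SH.S2
import Pool.Agent.Helper96.SH.Sb

/-!
PROJECT ALLQ, blocks E2/E3, piece (B): decomposition `W = N ⊕ conj N` and the lemma of Siegel on
`conj N`.
-/

set_option autoImplicit false

namespace Pool.Agent.Helper35.SH

open Finset Complex Filter Topology Pool.Agent.Helper49.SH

variable {ι : Type} [Fintype ι]

/-! ### bilinear form -/

theorem Eb_add_left (E : ι → ι → ℚ) (a b w : ι → ℂ) : Eb E (a + b) w = Eb E a w + Eb E b w := by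
  simp only [Eb, Pi.add_apply, mul_add, add_mul, sum_add_distrib]

theorem Eb_add_right (E : ι → ι → ℚ) (w a b : ι → ℂ) : Eb E w (a + b) = Eb E w a + Eb E w b := by
  simp only [Eb, Pi.add_apply, mul_add, sum_add_distrib]

theorem Eb_smul_left (E : ι → ι → ℚ) (c : ℂ) (a w : ι → ℂ) : Eb E (c • a) w = c * Eb E a w := by
  simp only [Eb, Pi.smul_apply, smul_eq_mul, mul_sum]
  refine sum_congr rfl fun i _ => sum_congr rfl fun j _ => ?_
  ring

theorem Eb_smul_right (E : ι → ι → ℚ) (c : ℂ) (a w : ι → ℂ) : Eb E a (c • w) = c * Eb E a w := by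
  simp only [Eb, Pi.smul_apply, smul_eq_mul, mul_sum]
  refine sum_congr rfl fun i _ => sum_congr rfl fun j _ => ?_
  ring

theorem Eb_alt {E : ι → ι → ℚ} (hE : ∀ i j, E i j = -E j i) (a b : ι → ℂ) :
    Eb E a b = -Eb E b a := by
  simp only [Eb]
  rw [sum_comm, ← sum_neg_distrib]
  refine sum_congr rfl fun i _ => ?_
  rw [← sum_neg_distrib]
  refine sum_congr rfl fun j _ => ?_
  rw [hE j i]
  push_cast
  ring

theorem Eb_self {E : ι → ι → ℚ} (hE : ∀ i j, E i j = -E j i) (a : ι → ℂ) : Eb E a a = 0 := by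
  have h := Eb_alt hE a a
  linear_combination h / 2

theorem Eb_cj (E : ι → ι → ℚ) (a b : ι → ℂ) :
    Eb E (cj a) (cj b) = (starRingEnd ℂ) (Eb E a b) := by
  simp only [Eb, cj, map_sum, map_mul]
  refine sum_congr rfl fun i _ => sum_congr rfl fun j _ => ?_
  rw [map_ratCast]

theorem Eb_cont (E : ι → ι → ℚ) {X : Type*} [TopologicalSpace X] {f g : X → ι → ℂ}
    (hf : Continuous f) (hg : Continuous g) : Continuous fun x => Eb E (f x) (g x) := by
  unfold Eb
  fun_prop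

/-! ### conjugation -/

theorem cj_cj (w : ι → ℂ) : cj (cj w) = w := by
  funext i
  simp [cj]

theorem cj_add (a b : ι → ℂ) : cj (a + b) = cj a + cj b := by
  funext i
  simp [cj]

theorem cj_sub (a b : ι → ℂ) : cj (a - b) = cj a - cj b := by
  funext i
  simp [cj]

theorem cj_smul (c : ℂ) (a : ι → ℂ) : cj (c • a) = (starRingEnd ℂ) c • cj a := by
  funext i
  simp [cj]

theorem cj_cont : Continuous (cj : (ι → ℂ) → (ι → ℂ)) := by
  unfold cj
  fun_prop

theorem mem_Nc {N : Submodule ℂ (ι → ℂ)} {e : ι → ℂ} : e ∈ Nc N ↔ cj e ∈ N := Iff.rfl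

/-! ### decomposition -/

theorem inter {E : ι → ι → ℚ} {N : Submodule ℂ (ι → ℂ)} (hP : Pol E N) {e : ι → ℂ} (h1 : e ∈ N)
    (h2 : e ∈ Nc N) : e = 0 := by
  by_contra h0
  have h3 := hP.pos e h1 h0
  rw [hP.iso e h1 (cj e) h2, mul_zero, neg_zero, zero_re] at h3
  exact lt_irrefl _ h3

/-- conjugation as a semilinear isomorphism -/
noncomputable def cjE (N : Submodule ℂ (ι → ℂ)) : N ≃ₛₗ[starRingEnd ℂ] Nc N where
  toFun e := ⟨cj e, by rw [mem_Nc, cj_cj]; exact e.2⟩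
  invFun e := ⟨cj e, e.2⟩
  map_add' a b := Subtype.ext (cj_add _ _)
  map_smul' c a := Subtype.ext (cj_smul _ _)
  left_inv a := Subtype.ext (cj_cj _)
  right_inv a := Subtype.ext (cj_cj _)

theorem finrank_Nc (N : Submodule ℂ (ι → ℂ)) :
    Module.finrank ℂ (Nc N) = Module.finrank ℂ N := by
  let b := Module.finBasis ℂ N
  let c : Module.Basis (Fin (Module.finrank ℂ N)) ℂ (Nc N) := by
    refine Module.Basis.mk (v := fun i => cjE N (b i)) ?_ ?_
    · rw [Fintype.linearIndependent_iff]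
      intro g hg i
      have h1 : ∑ i, (starRingEnd ℂ) (g i) • b i = 0 := by
        apply (cjE N).injective
        rw [map_sum, map_zero]
        rw [← hg]
        refine sum_congr rfl fun i _ => ?_
        rw [LinearEquiv.map_smulₛₗ, Complex.conj_conj]
      have h2 := Fintype.linearIndependent_iff.1 b.linearIndependent _ h1 i
      rwa [map_eq_zero] at h2
    · rintro x -
      have h1 := b.sum_repr ((cjE N).symm x)
      have h2 : x = ∑ i, (starRingEnd ℂ) (b.repr ((cjE N).symm x) i) • cjE N (b i) := by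
        conv_lhs => rw [← (cjE N).apply_symm_apply x, ← h1]
        rw [map_sum]
        refine sum_congr rfl fun i _ => ?_
        rw [LinearEquiv.map_smulₛₗ]
      rw [h2]
      exact Submodule.sum_mem _ fun i _ =>
        Submodule.smul_mem _ _ (Submodule.subset_span ⟨i, rfl⟩)
  rw [Module.finrank_eq_card_basis c, Fintype.card_fin]

theorem isCompl {E : ι → ι → ℚ} {N : Submodule ℂ (ι → ℂ)} (hP : Pol E N) :
    IsCompl N (Nc N) := by
  have h1 : N ⊓ Nc N = ⊥ := by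
    rw [eq_bot_iff]
    rintro e ⟨he1, he2⟩
    exact (Submodule.mem_bot ℂ).2 (inter hP he1 he2)
  refine ⟨disjoint_iff.2 h1, codisjoint_iff.2 ?_⟩
  apply Submodule.eq_top_of_finrank_eq
  have h2 := Submodule.finrank_sup_add_finrank_inf_eq N (Nc N)
  rw [h1, finrank_bot, finrank_Nc] at h2
  rw [Module.finrank_fintype_fun_eq_card, ← hP.dim]
  omega

/-- every real vector is `x + conj x` with `x ∈ Nc N` -/
theorem real_decomp {E : ι → ι → ℚ} {N : Submodule ℂ (ι → ℂ)} (hP : Pol E N) {w : ι → ℂ}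
    (hw : cj w = w) : ∃ x ∈ Nc N, x + cj x = w := by
  have h1 : w ∈ N ⊔ Nc N := by
    rw [(isCompl hP).sup_eq_top]
    trivial
  obtain ⟨y, hy, x, hx, hxy⟩ := Submodule.mem_sup.1 h1
  refine ⟨x, hx, ?_⟩
  have h2 : cj y + cj x = y + x := by rw [← cj_add, hxy, hw]
  have h3 : y - cj x ∈ N := N.sub_mem hy hx
  have h4 : y - cj x = cj y - x := by
    have := h2
    linear_combination -h2
  have h5 : y - cj x ∈ Nc N := by
    rw [h4]
    refine (Nc N).sub_mem ?_ hx
    rw [mem_Nc, cj_cj]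
    exact hy
  have h6 := inter hP h3 h5
  rw [sub_eq_zero] at h6
  rw [← h6, add_comm]
  exact hxy

/-- theta functions on `v + e`, `e` antiholomorphic -/
theorem AT_shift {E : ι → ι → ℚ} {N : Submodule ℂ (ι → ℂ)} {F : (ι → ℂ) → ℂ}
    (hE : ∀ i j, E i j = -E j i) (h : AT E N F) {e : ι → ℂ} (he : e ∈ N) (v : ι → ℂ) :
    F (v + e) = exp (Real.pi * I * Eb E e v) * F v := by
  -- the derivative of `s ↦ F (v + s e) exp(- π i s E(e, v))` vanishes
  have h1 : ∀ s : ℂ, HasDerivAt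
      (fun s : ℂ => F (v + s • e) * exp (-(s * (Real.pi * I * Eb E e v)))) 0 s := by
    intro s
    have h2 : HasDerivAt (fun s : ℂ => v + s • e) e s := by
      have := ((hasDerivAt_id s).smul_const e).const_add v
      simpa using this
    have h3 : HasDerivAt (fun s : ℂ => F (v + s • e)) (fderiv ℂ F (v + s • e) e) s :=
      (h.diff (v + s • e)).hasFDerivAt.comp_hasDerivAt s h2
    have h4 : HasDerivAt (fun s : ℂ => exp (-(s * (Real.pi * I * Eb E e v))))
        (exp (-(s * (Real.pi * I * Eb E e v))) * (-(1 * (Real.pi * I * Eb E e v)))) s :=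
      ((hasDerivAt_id s).mul_const _).neg.cexp
    have h5 := h3.mul h4
    rw [h.hol e he, Eb_add_right, Eb_smul_right, Eb_self hE e] at h5
    refine h5.congr_deriv ?_
    ring
  have h2 : ∀ s : ℂ, F (v + s • e) * exp (-(s * (Real.pi * I * Eb E e v))) = F v := by
    intro s
    have h3 := is_const_of_deriv_eq_zero (fun s => (h1 s).differentiableAt)
      (fun s => (h1 s).deriv) s 0
    simpa using h3
  have h3 := h2 1
  rw [one_smul, one_mul] at h3
  rw [← h3, mul_comm (F (v + e)), ← mul_assoc, ← exp_add, add_neg_cancel, exp_zero, one_mul]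

/-- periods `k n` -/
theorem per_mul {E : ι → ι → ℚ} {F : (ι → ℂ) → ℂ} {k : ℕ}
    (h : ∀ (l : ι → ℤ) (w : ι → ℂ),
      F (w + (k : ℂ) • zv l) = exp (-(Real.pi * I * k * Eb E (zv l) w)) * F w) (n : ℕ)
    (l : ι → ℤ) (w : ι → ℂ) :
    F (w + ((k * n : ℕ) : ℂ) • zv l) =
      exp (-(Real.pi * I * ((k * n : ℕ) : ℂ) * Eb E (zv l) w)) * F w := by
  have h1 := h (fun i => n * l i) w
  have h2 : zv (fun i => (n : ℤ) * l i) = (n : ℂ) • zv l := by
    funext i
    simp [zv]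
  rw [h2, smul_smul, Eb_smul_left] at h1
  push_cast
  rw [h1]
  congr 2
  ring

/-- a common period -/
theorem per_common {κ : Type} [Fintype κ] {E : ι → ι → ℚ} {N : Submodule ℂ (ι → ℂ)}
    {A : κ → (ι → ℂ) → ℂ} (hA : ∀ k, AT E N (A k)) :
    ∃ K : ℕ, 1 ≤ K ∧ ∀ k (l : ι → ℤ) (w : ι → ℂ),
      A k (w + (K : ℂ) • zv l) = exp (-(Real.pi * I * K * Eb E (zv l) w)) * A k w := by
  choose p hp1 hp using fun k => (hA k).per
  refine ⟨∏ k, p k, Nat.one_le_iff_ne_zero.2 (prod_ne_zero_iff.2 fun k _ => by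
    have := hp1 k; omega), fun k l w => ?_⟩
  classical
  rw [← mul_prod_erase univ p (mem_univ k)]
  exact per_mul (hp k) _ l w

theorem Eb_real (E : ι → ι → ℚ) (a b : ι → ℝ) :
    Eb E (fun i => (a i : ℂ)) (fun i => (b i : ℂ)) =
      ((∑ i, ∑ j, (E i j : ℝ) * a i * b j : ℝ) : ℂ) := by
  simp [Eb]

/-- the real vector `2 Re φ(x)` -/
noncomputable def Sm {ν : Type} [Fintype ν] {N : Submodule ℂ (ι → ℂ)}
    (φ : (ν → ℂ) ≃ₗ[ℂ] Nc N) : (ν → ℂ) →ₗ[ℝ] (ι → ℝ) where
  toFun x i := 2 * ((φ x : ι → ℂ) i).re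
  map_add' a b := by
    funext i
    simp [mul_add]
  map_smul' r a := by
    funext i
    have h : φ (r • a) = (r : ℂ) • φ a := by
      rw [← map_smul]
      rfl
    rw [h]
    simp [mul_left_comm]

theorem Sm_apply {ν : Type} [Fintype ν] {N : Submodule ℂ (ι → ℂ)}
    (φ : (ν → ℂ) ≃ₗ[ℂ] Nc N) (x : ν → ℂ) :
    (fun i => ((Sm φ x i : ℝ) : ℂ)) = (φ x : ι → ℂ) + cj (φ x : ι → ℂ) := by
  funext i
  simp only [Sm, LinearMap.coe_mk, AddHom.coe_mk, Pi.add_apply, cj]
  rw [Complex.add_conj]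

theorem Sm_bij {ν : Type} [Fintype ν] {E : ι → ι → ℚ} {N : Submodule ℂ (ι → ℂ)} (hP : Pol E N)
    (φ : (ν → ℂ) ≃ₗ[ℂ] Nc N) : Function.Bijective (Sm φ) := by
  constructor
  · rw [injective_iff_map_eq_zero]
    intro x hx
    have h1 := Sm_apply φ x
    rw [hx] at h1
    have h2 : (φ x : ι → ℂ) = -cj (φ x : ι → ℂ) := by
      rw [eq_neg_iff_add_eq_zero, ← h1]
      funext i
      simp
    have h3 : (φ x : ι → ℂ) ∈ N := by
      rw [h2]
      exact N.neg_mem (φ x).2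
    have h4 := inter hP h3 (φ x).2
    have h5 : φ x = 0 := Subtype.ext h4
    exact (map_eq_zero_iff φ φ.injective).1 h5
  · intro w
    obtain ⟨x, hx, hxw⟩ := real_decomp hP (w := fun i => (w i : ℂ)) (by funext i; simp [cj])
    refine ⟨φ.symm ⟨x, hx⟩, ?_⟩
    have h1 := Sm_apply φ (φ.symm ⟨x, hx⟩)
    rw [LinearEquiv.apply_symm_apply, hxw] at h1
    funext i
    exact_mod_cast congrFun h1 i

/-- **Siegel on `Nc N`**: more theta functions of one type than the dimension plus one satisfy an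
algebraic relation over the algebraic numbers. -/
theorem siegNc {ν κ : Type} [Fintype ν] [Fintype κ] {E₀ E : ι → ι → ℚ}
    {N : Submodule ℂ (ι → ℂ)} (hP : Pol E₀ N) (hE : ∀ i j, E i j = -E j i)
    (φ : (ν → ℂ) ≃ₗ[ℂ] Nc N) (hcard : Fintype.card κ = Fintype.card ν + 1)
    {A0 : (ι → ℂ) → ℂ} {A : κ → (ι → ℂ) → ℂ} (h0 : AlgT E N A0) (hne : A0 ≠ 0)
    (hA : ∀ k, AlgT E N (A k)) :
    ∃ Q : MvPolynomial κ ℂ, Q ≠ 0 ∧ (∀ m, IsAlgebraic ℚ (Q.coeff m)) ∧
      ∀ x : ν → ℂ, A0 (φ x : ι → ℂ) ≠ 0 →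
        MvPolynomial.eval (fun k => A k (φ x : ι → ℂ) / A0 (φ x : ι → ℂ)) Q = 0 := by
  classical
  -- coordinates
  let Se : (ν → ℂ) ≃ₗ[ℝ] (ι → ℝ) := LinearEquiv.ofBijective (Sm φ) (Sm_bij hP φ)
  let S : (ν → ℂ) ≃L[ℝ] (ι → ℝ) := Se.toContinuousLinearEquiv
  have hS : ∀ x, (fun i => ((S x i : ℝ) : ℂ)) = (φ x : ι → ℂ) + cj (φ x : ι → ℂ) :=
    fun x => Sm_apply φ x
  let φ' : (ν → ℂ) →ₗ[ℂ] (ι → ℂ) := (Nc N).subtype ∘ₗ φ.toLinearMap
  have hφ' : ∀ x, φ' x = (φ x : ι → ℂ) := fun x => rfl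
  have hφd : Differentiable ℂ fun x : ν → ℂ => (φ x : ι → ℂ) :=
    (LinearMap.toContinuousLinearMap φ').differentiable
  have hφc : Continuous fun x : ν → ℂ => (φ x : ι → ℂ) := hφd.continuous
  -- the exponential factor
  let m : (ν → ℂ) → ℂ := fun x => Real.pi * I * Eb E (cj (φ x : ι → ℂ)) (φ x : ι → ℂ)
  have hmc : Continuous m := by
    refine Continuous.mul continuous_const ?_
    exact Eb_cont E (cj_cont.comp hφc) hφc
  have hval : ∀ G : (ι → ℂ) → ℂ, AT E N G → ∀ x,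
      G (fun i => ((S x i : ℝ) : ℂ)) = exp (m x) * G (φ x : ι → ℂ) := by
    intro G hG x
    rw [hS, AT_shift hE hG (e := cj (φ x : ι → ℂ)) (φ x).2]
  -- common period
  obtain ⟨K, hK1, hK⟩ := per_common (κ := Option κ) (A := fun o => o.elim A0 A) (E := E) (N := N)
    (by rintro (_ | k); exacts [h0.toAT, (hA k).toAT])
  have hK0 : (0 : ℝ) < K := by exact_mod_cast hK1
  -- the compact set
  let D : Set (ν → ℂ) := S ⁻¹' (Set.Icc (fun _ => (0 : ℝ)) (fun _ => (K : ℝ)))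
  have hD : IsCompact D := by
    have h1 : IsCompact (Set.Icc (fun _ : ι => (0 : ℝ)) (fun _ => (K : ℝ))) := isCompact_Icc
    have h2 : D = S.symm '' (Set.Icc (fun _ : ι => (0 : ℝ)) (fun _ => (K : ℝ))) := by
      ext x
      constructor
      · intro hx
        exact ⟨S x, hx, S.symm_apply_apply x⟩
      · rintro ⟨y, hy, rfl⟩
        change S (S.symm y) ∈ Set.Icc (fun _ : ι => (0 : ℝ)) (fun _ => (K : ℝ))
        rw [S.apply_symm_apply]
        exact hy
    rw [h2]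
    exact h1.image S.symm.continuous
  have hcov : ∀ x : ν → ℂ, ∃ y ∈ D, ∃ j : ℂ, (∀ o : Option κ,
      (o.elim A0 A : (ι → ℂ) → ℂ) (φ x : ι → ℂ) = j * (o.elim A0 A : (ι → ℂ) → ℂ) (φ y : ι → ℂ)) ∧
      ‖j‖ * ‖exp (m x)‖ ≤ ‖exp (m y)‖ := by
    intro x
    let l : ι → ℤ := fun i => ⌊S x i / K⌋
    let w : ι → ℝ := fun i => S x i - K * l i
    have hw : ∀ i, 0 ≤ w i ∧ w i ≤ K := by
      intro i
      have h1 : (l i : ℝ) ≤ S x i / K := Int.floor_le _
      have h2 : S x i / K < l i + 1 := Int.lt_floor_add_one _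
      rw [le_div_iff₀ hK0] at h1
      rw [div_lt_iff₀ hK0] at h2
      constructor
      · change 0 ≤ S x i - K * l i
        linarith
      · change S x i - K * l i ≤ K
        linarith
    refine ⟨S.symm w, ?_, exp (-(Real.pi * I * K * Eb E (zv l) (fun i => (w i : ℂ))) +
      m (S.symm w) - m x), ?_, ?_⟩
    · change S (S.symm w) ∈ Set.Icc (fun _ : ι => (0 : ℝ)) (fun _ => (K : ℝ))
      rw [S.apply_symm_apply]
      exact ⟨fun i => (hw i).1, fun i => (hw i).2⟩
    · intro o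
      have h1 : (fun i => ((S x i : ℝ) : ℂ)) = (fun i => (w i : ℂ)) + (K : ℂ) • zv l := by
        funext i
        simp only [Pi.add_apply, Pi.smul_apply, smul_eq_mul, zv, w]
        push_cast
        ring
      have hAo : AT E N (o.elim A0 A) := by
        rcases o with _ | k
        exacts [h0.toAT, (hA k).toAT]
      have h2 := hK o l (fun i => (w i : ℂ))
      have h3 := hval _ hAo x
      rw [h1] at h3
      have h4 := hval _ hAo (S.symm w)
      rw [S.apply_symm_apply] at h4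
      rw [h2, h4] at h3
      have h5 : (o.elim A0 A : (ι → ℂ) → ℂ) (φ x : ι → ℂ) = exp (-(m x)) *
          (exp (m x) * (o.elim A0 A : (ι → ℂ) → ℂ) (φ x : ι → ℂ)) := by
        rw [← mul_assoc, ← exp_add, neg_add_cancel, exp_zero, one_mul]
      rw [h5, ← h3, ← mul_assoc, ← mul_assoc, ← exp_add, ← exp_add]
      congr 2
      ring
    · rw [exp_sub, norm_div, div_mul_cancel₀ _ (norm_ne_zero_iff.2 (exp_ne_zero _)), exp_add,
        norm_mul]
      have h1 : ‖exp (-(Real.pi * I * K * Eb E (zv l) (fun i => (w i : ℂ))))‖ = 1 := by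
        rw [Complex.norm_exp]
        have h2 : zv l = fun i => (((l i : ℤ) : ℝ) : ℂ) := by
          funext i
          simp [zv]
        rw [h2, Eb_real]
        have h3 : ∀ r : ℝ, (-((Real.pi : ℂ) * I * (K : ℂ) * (r : ℂ))).re = 0 := by
          intro r
          rw [show -((Real.pi : ℂ) * I * (K : ℂ) * (r : ℂ)) =
            ((-(Real.pi * K * r) : ℝ) : ℂ) * I by push_cast; ring]
          simp
        rw [h3, Real.exp_zero]
      rw [h1, one_mul]
  -- density
  have hA0a : AnalyticOnNhd ℂ (fun x : ν → ℂ => A0 (φ x : ι → ℂ)) Set.univ :=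
    Pool.Agent.Helper96.SH.analyticOnNhd_of_differentiableOn isOpen_univ
      (h0.diff.comp hφd).differentiableOn
  have hA0ne : ∃ x : ν → ℂ, A0 (φ x : ι → ℂ) ≠ 0 := by
    by_contra hcon
    push Not at hcon
    apply hne
    funext v
    have h1 : v ∈ N ⊔ Nc N := by
      rw [(isCompl hP).sup_eq_top]
      trivial
    obtain ⟨y, hy, x, hx, hxy⟩ := Submodule.mem_sup.1 h1
    have h2 := hcon (φ.symm ⟨x, hx⟩)
    rw [LinearEquiv.apply_symm_apply] at h2
    rw [← hxy, add_comm, AT_shift hE h0.toAT hy, h2, mul_zero]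
    rfl
  have hdense : ∀ (x : ν → ℂ) (V : Set (ν → ℂ)), IsOpen V → x ∈ V →
      ∃ y ∈ V, A0 (φ y : ι → ℂ) ≠ 0 := by
    intro x V hV hxV
    by_contra hcon
    push Not at hcon
    have h1 : (fun x : ν → ℂ => A0 (φ x : ι → ℂ)) =ᶠ[𝓝 x] 0 :=
      Filter.eventually_of_mem (hV.mem_nhds hxV) hcon
    have h2 := hA0a.eqOn_zero_of_preconnected_of_eventuallyEq_zero isPreconnected_univ
      (Set.mem_univ x) h1
    obtain ⟨y, hy⟩ := hA0ne
    exact hy (h2 (Set.mem_univ y))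
  have hO : (Set.univ : Set (ν → ℂ)) ⊆ closure {x | x ∈ (Set.univ : Set (ν → ℂ)) ∧
      A0 (φ x : ι → ℂ) ≠ 0 ∧ ∀ k, IsAlgebraic ℚ (A k (φ x : ι → ℂ) / A0 (φ x : ι → ℂ))} := by
    intro x _
    rw [mem_closure_iff]
    intro V hV hxV
    obtain ⟨y, hyV, hy⟩ := hdense x V hV hxV
    -- open set of good points near y
    have hc0 : Continuous fun x : ν → ℂ => A0 (φ x : ι → ℂ) := h0.diff.continuous.comp hφc
    have hV' : IsOpen (V ∩ {x | A0 (φ x : ι → ℂ) ≠ 0}) :=
      hV.inter (isOpen_ne_fun hc0 continuous_const)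
    have hW : IsOpen (S.symm ⁻¹' (V ∩ {x | A0 (φ x : ι → ℂ) ≠ 0})) :=
      hV'.preimage S.symm.continuous
    have hdr : DenseRange (fun t : ι → ℚ => fun i => ((t i : ℚ) : ℝ)) :=
      DenseRange.piMap fun _ => Rat.denseRange_cast
    obtain ⟨t, ht⟩ := hdr.exists_mem_open hW ⟨S y, by
      rw [Set.mem_preimage, S.symm_apply_apply]
      exact ⟨hyV, hy⟩⟩
    refine ⟨S.symm (fun i => ((t i : ℚ) : ℝ)), ht.1, Set.mem_univ _, ht.2, fun k => ?_⟩
    have hrt : (fun i => (((t i : ℚ) : ℝ) : ℂ)) = rv t := by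
      funext i
      simp [rv]
    have h1 := hval _ (hA k).toAT (S.symm (fun i => ((t i : ℚ) : ℝ)))
    have h2 := hval _ h0.toAT (S.symm (fun i => ((t i : ℚ) : ℝ)))
    rw [S.apply_symm_apply, hrt] at h1 h2
    rw [← mul_div_mul_left _ _ (exp_ne_zero (m (S.symm fun i => ((t i : ℚ) : ℝ)))), ← h1, ← h2]
    rw [div_eq_mul_inv]
    exact IsAlgebraic.mul ((hA k).val t) (IsAlgebraic.inv (h0.val t))
  obtain ⟨Q, hQ0, hQa, hQ⟩ := Pool.Agent.Helper11.SH.siegel_alg (ι := ν) (κ := κ) hcard isOpen_univ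
    (f0 := fun x => A0 (φ x : ι → ℂ)) (f := fun k x => A k (φ x : ι → ℂ))
    (h0.diff.comp hφd).differentiableOn (fun k => ((hA k).diff.comp hφd).differentiableOn)
    (ρ := fun x => ‖exp (m x)‖) (hmc.cexp.norm.continuousOn)
    (fun x _ => norm_pos_iff.2 (exp_ne_zero _)) hD (Set.subset_univ _)
    (fun x _ => by
      obtain ⟨y, hy, j, hj, hjn⟩ := hcov x
      exact ⟨y, hy, j, hj none, fun k => hj (some k), hjn⟩) hO
  exact ⟨Q, hQ0, hQa, fun x hx => hQ x (Set.mem_univ x) hx⟩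

end Pool.Agent.Helper35.SH
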