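import Pool.Agent.Helper35.SH.Eb
import Pool.Agent.Helper52.SH.Ca
import Pool.Agent.Helper52.SH.Im
import Pool.Agent.Helper73.SH.La
import Pool.Agent.Helper35.SH.El

/-!
PROJECT ALLQ, blocks E2, E3: deduction of `E_one`, `E_form`, `E_indep` from Lemma A and Lemma B.
-/

set_option autoImplicit false

namespace Pool.Agent.Helper35.SH

open Finset Complex Filter Topology Pool.Agent.Helper49.SH
open Pool.Agent.Helper73.SH (lemA)
open Pool.Agent.Helper52.SH (AlgT_Ut nab_Ut AlgT_add AlgT_smul AlgT_mul AlgT_neg AlgT_pull nab_pull imm)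

variable {ι : Type} [Fintype ι]

/-! ### calculus at the origin -/

theorem rv_zero : rv (0 : ι → ℚ) = 0 := by
  funext i
  simp [rv]

theorem Eb_zero_right (E : ι → ι → ℚ) (e : ι → ℂ) : Eb E e 0 = 0 := by
  simp [Eb]

theorem Ut_zero (E : ι → ι → ℚ) (t : ι → ℚ) (F : (ι → ℂ) → ℂ) : Ut E t F 0 = F (rv t) := by
  rw [Ut, Eb_zero_right, mul_zero, exp_zero, one_mul, zero_add]

theorem nab_zero (E : ι → ι → ℚ) (e : ι → ℂ) (F : (ι → ℂ) → ℂ) : nab E e F 0 = fderiv ℂ F 0 e := by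
  rw [nab, Eb_zero_right, mul_zero, zero_mul, sub_zero]

theorem fderiv_Ut_zero {E : ι → ι → ℚ} (hE : ∀ i j, E i j = -E j i) {F : (ι → ℂ) → ℂ}
    (h : Differentiable ℂ F) (t : ι → ℚ) (e : ι → ℂ) :
    fderiv ℂ (Ut E t F) 0 e = nab E e F (rv t) := by
  rw [← nab_zero E, nab_Ut hE h, Eb_zero_right, mul_zero, exp_zero, one_mul, zero_add]

theorem Pol_add {E E' : ι → ι → ℚ} {N : Submodule ℂ (ι → ℂ)} (hP : Pol E N) (hP' : Pol E' N) :
    Pol (E + E') N := by
  have h1 : ∀ a b : ι → ℂ, Eb (E + E') a b = Eb E a b + Eb E' a b :=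
    fun a b => Pool.Agent.Helper52.SH.Eb_add_form E E' a b
  refine ⟨fun i j => ?_, fun e he e' he' => ?_, fun e he h0 => ?_, hP.dim⟩
  · rw [Pi.add_apply, Pi.add_apply, Pi.add_apply, Pi.add_apply, hP.alt i j, hP'.alt i j]
    ring
  · rw [h1, hP.iso e he e' he', hP'.iso e he e' he', add_zero]
  · rw [h1]
    have h2 := hP.pos e he h0
    have h3 := hP'.pos e he h0
    have h4 : (-(I * (Eb E e (cj e) + Eb E' e (cj e)))).re =
        (-(I * Eb E e (cj e))).re + (-(I * Eb E' e (cj e))).re := by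
      rw [← add_re]
      congr 1
      ring
    rw [h4]
    exact add_pos h2 h3

/-- the basic forms -/
noncomputable def lam (E : ι → ι → ℚ) (F : (ι → ℂ) → ℂ) (a t : ι → ℚ) (e : ι → ℂ) : ℂ :=
  F (rv a) * nab E e F (rv t) - F (rv t) * nab E e F (rv a)

theorem nab_lin (E : ι → ι → ℚ) (F : (ι → ℂ) → ℂ) (w a b : ι → ℂ) (c : ℂ) :
    nab E (a + c • b) F w = nab E a F w + c * nab E b F w := by
  simp only [nab, map_add, map_smul, Eb_add_left, Eb_smul_left, smul_eq_mul]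
  ring

theorem lam_lin (E : ι → ι → ℚ) (F : (ι → ℂ) → ℂ) (a t : ι → ℚ) (x y : ι → ℂ) (c : ℂ) :
    lam E F a t (x + c • y) = lam E F a t x + c * lam E F a t y := by
  simp only [lam, nab_lin]
  ring

/-- **KEY**: first derivatives of algebraic theta functions of any type are combinations of the basic
forms over the algebraic numbers -/
theorem key {E E' : ι → ι → ℚ} {N : Submodule ℂ (ι → ℂ)} (hP : Pol E N) (hP' : Pol E' N)
    {F : (ι → ℂ) → ℂ} (hF : AlgT E N F) {a : ι → ℚ}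
    {t : Fin (Module.finrank ℂ N) → (ι → ℚ)} (ha : F (rv a) ≠ 0)
    (hind : ∀ e ∈ Nc N, (∀ i, lam E F a (t i) e = 0) → e = 0)
    {G : (ι → ℂ) → ℂ} (hG : AlgT E' N G) :
    ∃ c : Fin (Module.finrank ℂ N) → ℂ, (∀ i, IsAlgebraic ℚ (c i)) ∧ ∀ e ∈ Nc N,
      nab E' e G 0 = ∑ i, c i * lam E F a (t i) e := by
  by_cases hG0 : G = 0
  · refine ⟨fun _ => 0, fun _ => isAlgebraic_zero, fun e _ => ?_⟩
    rw [nab_zero, hG0]
    simp
  obtain ⟨a', -, ha', -, -⟩ := lemA hP' hG.toAT hG0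
  obtain ⟨H, hH⟩ : ∃ H, H = Ut E' a' G := ⟨_, rfl⟩
  obtain ⟨A, hA⟩ : ∃ A, A = Ut E a F := ⟨_, rfl⟩
  have hHT : AlgT E' N H := by
    rw [hH]
    exact AlgT_Ut hP'.alt hG a'
  have hAT : AlgT E N A := by
    rw [hA]
    exact AlgT_Ut hP.alt hF a
  have hH0 : H 0 ≠ 0 := by
    rw [hH, Ut_zero]
    exact ha'
  have hA0 : A 0 ≠ 0 := by
    rw [hA, Ut_zero]
    exact ha
  have hA0' : A 0 = F (rv a) := by rw [hA, Ut_zero]
  have hHal : IsAlgebraic ℚ (H 0) := by
    rw [← rv_zero]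
    exact hHT.val 0
  have hAal : IsAlgebraic ℚ (A 0) := by
    rw [← rv_zero]
    exact hAT.val 0
  have hGal : IsAlgebraic ℚ (G 0) := by
    rw [← rv_zero]
    exact hG.val 0
  -- the coordinates
  let B : Fin (Module.finrank ℂ N) → (ι → ℂ) → ℂ := fun i =>
    (Ut E (t i) F + (-(F (rv (t i)) / F (rv a))) • A) * H
  have hcal : ∀ i, IsAlgebraic ℚ (-(F (rv (t i)) / F (rv a))) := fun i =>
    IsAlgebraic.neg (by
      rw [div_eq_mul_inv]
      exact IsAlgebraic.mul (hF.val _) (IsAlgebraic.inv (hF.val _)))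
  have hBT : ∀ i, AlgT (E + E') N (B i) := fun i =>
    AlgT_mul (AlgT_add (AlgT_Ut hP.alt hF (t i)) (AlgT_smul hAT (hcal i))) hHT
  have hB0 : ∀ i, B i 0 = 0 := by
    intro i
    simp only [B, Pi.mul_apply, Pi.add_apply, Pi.smul_apply, smul_eq_mul, Ut_zero, hA0']
    field_simp
    ring
  have hdA : ∀ e, fderiv ℂ A 0 e = nab E e F (rv a) := by
    intro e
    rw [hA, fderiv_Ut_zero hP.alt hF.diff]
  have hBd : ∀ i e, fderiv ℂ (B i) 0 e = H 0 / A 0 * lam E F a (t i) e := by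
    intro i e
    have hd1 : DifferentiableAt ℂ (Ut E (t i) F + (-(F (rv (t i)) / F (rv a))) • A) 0 :=
      (AlgT_add (AlgT_Ut hP.alt hF (t i)) (AlgT_smul hAT (hcal i))).diff 0
    have hd2 : DifferentiableAt ℂ (Ut E (t i) F) 0 := (AlgT_Ut hP.alt hF (t i)).diff 0
    have hd3 : DifferentiableAt ℂ ((-(F (rv (t i)) / F (rv a))) • A) 0 :=
      (AlgT_smul hAT (hcal i)).diff 0
    simp only [B]
    rw [fderiv_mul hd1 (hHT.diff 0), fderiv_add hd2 hd3, fderiv_const_smul (hAT.diff 0)]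
    simp only [ContinuousLinearMap.add_apply, ContinuousLinearMap.smul_apply, smul_eq_mul,
      Pi.add_apply, Pi.smul_apply, Ut_zero, hA0', hdA, fderiv_Ut_zero hP.alt hF.diff, lam]
    field_simp
    ring
  have hindB : ∀ e ∈ Nc N, (∀ i, fderiv ℂ (B i) 0 e = 0) → e = 0 := by
    intro e he h1
    refine hind e he fun i => ?_
    have h2 := h1 i
    rw [hBd] at h2
    exact (mul_eq_zero.1 h2).resolve_left (div_ne_zero hH0 hA0)
  have h00 : (A * H) 0 ≠ 0 := mul_ne_zero hA0 hH0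
  have hPE := Pol_add hP hP'
  have hneg : HasFDerivAt (fun w => H (-w)) (-(fderiv ℂ H 0)) 0 := by
    have h1 : HasFDerivAt H (fderiv ℂ H 0) (-(0 : ι → ℂ)) := by
      rw [neg_zero]
      exact (hHT.diff 0).hasFDerivAt
    have h2 := h1.comp (0 : ι → ℂ) (hasFDerivAt_id (0 : ι → ℂ)).neg
    refine h2.congr_fderiv ?_
    ext e
    simp
  obtain ⟨c1, hc1, hc1'⟩ := lemB hPE (AlgT_mul hAT hHT) hBT (AlgT_mul hAT (AlgT_neg hHT)) h00 hB0
    hindB
  obtain ⟨c2, hc2, hc2'⟩ := lemB hPE (AlgT_mul hAT hHT) hBT (AlgT_mul hAT hG) h00 hB0 hindB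
  -- first consequence
  have k1 : ∀ e ∈ Nc N, fderiv ℂ H 0 e =
      ∑ i, (-(c1 i) / (2 * A 0 ^ 3)) * lam E F a (t i) e := by
    intro e he
    have h1 := hc1' e he
    rw [fderiv_mul (hAT.diff 0) hneg.differentiableAt, fderiv_mul (hAT.diff 0) (hHT.diff 0),
      hneg.fderiv] at h1
    simp only [ContinuousLinearMap.add_apply, ContinuousLinearMap.smul_apply, smul_eq_mul,
      ContinuousLinearMap.neg_apply, Pi.mul_apply, neg_zero, hBd] at h1
    have h2 : ∑ i, (-(c1 i) / (2 * A 0 ^ 3)) * lam E F a (t i) e =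
        -(∑ i, c1 i * (H 0 / A 0 * lam E F a (t i) e)) / (2 * A 0 ^ 2 * H 0) := by
      rw [← sum_neg_distrib, sum_div]
      refine sum_congr rfl fun i _ => ?_
      field_simp
    rw [h2, ← h1]
    field_simp
    ring
  have k2 : ∀ e ∈ Nc N, fderiv ℂ G 0 e =
      G 0 / H 0 * fderiv ℂ H 0 e + ∑ i, (c2 i / (A 0 ^ 3)) * lam E F a (t i) e := by
    intro e he
    have h1 := hc2' e he
    rw [fderiv_mul (hAT.diff 0) (hG.diff 0), fderiv_mul (hAT.diff 0) (hHT.diff 0)] at h1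
    simp only [ContinuousLinearMap.add_apply, ContinuousLinearMap.smul_apply, smul_eq_mul,
      Pi.mul_apply, hBd] at h1
    have h2 : ∑ i, (c2 i / (A 0 ^ 3)) * lam E F a (t i) e =
        (∑ i, c2 i * (H 0 / A 0 * lam E F a (t i) e)) / (A 0 ^ 2 * H 0) := by
      rw [sum_div]
      refine sum_congr rfl fun i _ => ?_
      field_simp
    rw [h2, ← h1]
    field_simp
    ring
  have h3 : IsAlgebraic ℚ (A 0 ^ 3) := hAal.pow 3
  refine ⟨fun i => G 0 / H 0 * (-(c1 i) / (2 * A 0 ^ 3)) + c2 i / A 0 ^ 3, fun i => ?_,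
    fun e he => ?_⟩
  · refine IsAlgebraic.add (IsAlgebraic.mul ?_ ?_) ?_
    · rw [div_eq_mul_inv]
      exact IsAlgebraic.mul hGal (IsAlgebraic.inv hHal)
    · rw [div_eq_mul_inv]
      refine IsAlgebraic.mul (IsAlgebraic.neg (hc1 i)) (IsAlgebraic.inv (IsAlgebraic.mul ?_ h3))
      exact isAlgebraic_algebraMap (R := ℚ) (A := ℂ) 2
    · rw [div_eq_mul_inv]
      exact IsAlgebraic.mul (hc2 i) (IsAlgebraic.inv h3)
  · rw [nab_zero, k2 e he, k1 e he, mul_sum, ← sum_add_distrib]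
    refine sum_congr rfl fun i _ => ?_
    ring

theorem IsAlgebraic_sum {κ : Type} (s : Finset κ) (f : κ → ℂ)
    (h : ∀ i ∈ s, IsAlgebraic ℚ (f i)) : IsAlgebraic ℚ (∑ i ∈ s, f i) := by
  classical
  induction s using Finset.induction_on with
  | empty =>
    rw [sum_empty]
    exact isAlgebraic_zero
  | insert a s ha ih =>
    rw [sum_insert ha]
    exact (h a (mem_insert_self a s)).add (ih fun i hi => h i (mem_insert_of_mem hi))

theorem mem_of_lam {E E' : ι → ι → ℚ} {N : Submodule ℂ (ι → ℂ)} (hP : Pol E N) (hP' : Pol E' N)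
    {F : (ι → ℂ) → ℂ} (hF : AlgT E N F) {a : ι → ℚ}
    {t : Fin (Module.finrank ℂ N) → (ι → ℚ)} (ha : F (rv a) ≠ 0)
    (hind : ∀ e ∈ Nc N, (∀ i, lam E F a (t i) e = 0) → e = 0) {e : ι → ℂ} (he : e ∈ Nc N)
    (h : ∀ i, IsAlgebraic ℚ (lam E F a (t i) e)) : e ∈ Valg E' N := by
  refine ⟨he, fun G hG s => ?_⟩
  obtain ⟨c, hc, hc'⟩ := key hP hP' hF ha hind (AlgT_Ut hP'.alt hG s)
  have h1 := hc' e he
  rw [nab_zero, fderiv_Ut_zero hP'.alt hG.diff] at h1
  rw [h1]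
  exact IsAlgebraic_sum _ _ fun i _ => (hc i).mul (h i)

theorem lam_alg {E : ι → ι → ℚ} {N : Submodule ℂ (ι → ℂ)}
    {F : (ι → ℂ) → ℂ} (hF : AlgT E N F) (a t : ι → ℚ) {e : ι → ℂ} (he : e ∈ Valg E N) :
    IsAlgebraic ℚ (lam E F a t e) :=
  ((hF.val a).mul (he.2 F hF t)).sub ((hF.val t).mul (he.2 F hF a))

theorem lemA' {E : ι → ι → ℚ} {N : Submodule ℂ (ι → ℂ)} (hP : Pol E N) {F : (ι → ℂ) → ℂ}
    (hF : AT E N F) (h0 : F ≠ 0) :
    ∃ (a : ι → ℚ) (t : Fin (Module.finrank ℂ N) → (ι → ℚ)), F (rv a) ≠ 0 ∧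
      (∀ i, F (rv (t i)) ≠ 0) ∧ ∀ e ∈ Nc N, (∀ i, lam E F a (t i) e = 0) → e = 0 := by
  obtain ⟨a, t, h1, h2, h3⟩ := lemA hP hF h0
  exact ⟨a, t, h1, h2, fun e he h => h3 e he fun i => sub_eq_zero.1 (h i)⟩

theorem E_one {E : ι → ι → ℚ} {N : Submodule ℂ (ι → ℂ)} (hP : Pol E N) {F : (ι → ℂ) → ℂ}
    (hF : AlgT E N F) (h0 : F ≠ 0) {e : ι → ℂ} (he : e ∈ Nc N)
    (h : ∀ t : ι → ℚ, F (rv t) ≠ 0 → IsAlgebraic ℚ (nab E e F (rv t))) : e ∈ Valg E N := by
  obtain ⟨a, t, ha, ht, hind⟩ := lemA' hP hF.toAT h0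
  exact mem_of_lam hP hP hF ha hind he fun i =>
    ((hF.val a).mul (h _ (ht i))).sub ((hF.val (t i)).mul (h _ ha))

theorem E_form {E : ι → ι → ℚ} {N : Submodule ℂ (ι → ℂ)} (hP : Pol E N) (hG : Good E N) :
    ∃ b : Fin (Module.finrank ℂ N) → (ι → ℂ), (∀ i, b i ∈ Valg E N) ∧ LinearIndependent ℂ b ∧
      ∀ c : Fin (Module.finrank ℂ N) → ℂ, ∑ i, c i • b i ∈ Valg E N →
        ∀ i, IsAlgebraic ℚ (c i) := by
  classical
  obtain ⟨F, hF, h0⟩ := hG
  obtain ⟨a, t, ha, ht, hind⟩ := lemA' hP hF.toAT h0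
  let L : Nc N →ₗ[ℂ] (Fin (Module.finrank ℂ N) → ℂ) :=
    { toFun := fun e i => lam E F a (t i) e
      map_add' := fun x y => by
        funext i
        have := lam_lin E F a (t i) x y 1
        simpa using this
      map_smul' := fun c x => by
        funext i
        have h1 := lam_lin E F a (t i) 0 x c
        have h2 := lam_lin E F a (t i) 0 0 1
        simp only [zero_add, one_smul, one_mul] at h1 h2
        have h3 : lam E F a (t i) (0 : ι → ℂ) = 0 := by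
          linear_combination -h2
        rw [h3, zero_add] at h1
        simpa using h1 }
  have hLi : Function.Injective L := by
    rw [injective_iff_map_eq_zero]
    intro e he
    exact Subtype.ext (hind e e.2 fun i => congrFun he i)
  have hLs : Function.Surjective L := by
    rw [← LinearMap.range_eq_top]
    apply Submodule.eq_top_of_finrank_eq
    rw [LinearMap.finrank_range_of_inj hLi, finrank_Nc, Module.finrank_fintype_fun_eq_card,
      Fintype.card_fin]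
  choose b hb using fun i => hLs (Pi.single i 1)
  have hL : ∀ (e : ι → ℂ) (he : e ∈ Nc N) i, L ⟨e, he⟩ i = lam E F a (t i) e :=
    fun e he i => rfl
  have hval : ∀ i j, lam E F a (t j) (b i) = if j = i then 1 else 0 := by
    intro i j
    have h1 := congrFun (hb i) j
    rw [Pi.single_apply] at h1
    exact h1
  have hbV : ∀ i, (b i : ι → ℂ) ∈ Valg E N := by
    intro i
    refine mem_of_lam hP hP hF ha hind (b i).2 fun j => ?_
    rw [hval]
    split_ifs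
    · exact isAlgebraic_one
    · exact isAlgebraic_zero
  have hsum : ∀ (c : Fin (Module.finrank ℂ N) → ℂ) i,
      lam E F a (t i) (∑ j, c j • (b j : ι → ℂ)) = c i := by
    intro c i
    have h1 : (∑ j, c j • (b j : ι → ℂ)) = ((∑ j, c j • b j : Nc N) : ι → ℂ) := by
      push_cast
      rfl
    have h2 : lam E F a (t i) ((∑ j, c j • b j : Nc N) : ι → ℂ) = L (∑ j, c j • b j) i := rfl
    rw [h1, h2, map_sum, Finset.sum_apply]
    simp only [map_smul, hb, Pi.smul_apply, Pi.single_apply, smul_eq_mul]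
    simp
  refine ⟨fun i => b i, hbV, ?_, fun c hc i => ?_⟩
  · rw [Fintype.linearIndependent_iff]
    intro c hc i
    have h1 := hsum c i
    rw [hc] at h1
    have h2 := congrFun (L.map_zero) i
    change lam E F a (t i) ((0 : Nc N) : ι → ℂ) = 0 at h2
    rw [← h1]
    exact h2
  · rw [← hsum c i]
    exact lam_alg hF a (t i) hc

theorem E_indep {E E' : ι → ι → ℚ} {N : Submodule ℂ (ι → ℂ)} (hP : Pol E N) (hP' : Pol E' N)
    (hG : Good E N) (hG' : Good E' N) : Valg E N = Valg E' N := by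
  have h : ∀ {E E' : ι → ι → ℚ}, Pol E N → Pol E' N → Good E N → Valg E N ⊆ Valg E' N := by
    intro E E' hP hP' hG e he
    obtain ⟨F, hF, h0⟩ := hG
    obtain ⟨a, t, ha, ht, hind⟩ := lemA' hP hF.toAT h0
    exact mem_of_lam hP hP' hF ha hind he.1 fun i => lam_alg hF a (t i) he
  exact Set.Subset.antisymm (h hP hP' hG) (h hP' hP hG')

end Pool.Agent.Helper35.SH
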